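import Mathlib

set_option autoImplicit false

namespace Pool.Agent.Results.MP_1d8377_an.Counter

open MeasureTheory Set

/-- The Laplacian of `φ` on `ℝ^N`: the sum of the pure second partial derivatives. -/
noncomputable def lap {N : ℕ} (φ : (Fin N → ℝ) → ℝ) (x : Fin N → ℝ) : ℝ :=
  ∑ i, fderiv ℝ (fun y => fderiv ℝ φ y (Pi.single i 1)) x (Pi.single i 1)

noncomputable def tw (x : ℝ) : ℝ := (2 : ℝ) ^ x

lemma tw_pos (x : ℝ) : 0 < tw x := Real.rpow_pos_of_pos two_pos x
lemma tw_add (x y : ℝ) : tw (x + y) = tw x * tw y := Real.rpow_add two_pos x y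
lemma tw_sub (x y : ℝ) : tw (x - y) = tw x / tw y := Real.rpow_sub two_pos x y
lemma tw_mono {x y : ℝ} (h : x ≤ y) : tw x ≤ tw y := Real.rpow_le_rpow_of_exponent_le one_le_two h
lemma tw_rpow (x q : ℝ) : tw x ^ q = tw (x * q) := (Real.rpow_mul two_pos.le x q).symm
lemma tw_succ (x : ℝ) : tw (x + 1) = 2 * tw x := by rw [tw_add, mul_comm]; simp [tw]
lemma tw_neg (k : ℕ) : tw (-k) = (1 / 2) ^ k := by
  simp [tw, Real.rpow_neg, Real.rpow_natCast]

noncomputable def a (k : ℕ) : ℝ := 1 - tw (-(k + 1))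
noncomputable def l (k : ℕ) : ℝ := tw (-(k + 2) ^ 2)
noncomputable def c (k : ℕ) : ℝ := tw (-k + (k + 2) ^ 2)
def J (k : ℕ) : Set ℝ := Ico (a k) (a k + l k)

lemma a_succ (k : ℕ) : a (k + 1) = a k + tw (-(k + 2)) := by
  have := tw_succ (-(k + 2))
  rw [show -((k : ℝ) + 2) + 1 = -(k + 1) by ring] at this
  simp only [a]; push_cast
  rw [show -((k : ℝ) + 1 + 1) = -(k + 2) by ring]; linarith

lemma a_mono : Monotone a := monotone_nat_of_le_succ fun k => by
  rw [a_succ]; linarith [tw_pos (-(k + 2))]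

lemma J_bd {k : ℕ} {t : ℝ} (h : t ∈ J k) : a k ≤ t ∧ t < a (k + 1) := by
  refine ⟨h.1, h.2.trans_le ?_⟩
  rw [a_succ]
  have : l k ≤ tw (-(k + 2)) := tw_mono (by nlinarith [Nat.cast_nonneg (α := ℝ) k])
  linarith

lemma J_01 {k : ℕ} {t : ℝ} (h : t ∈ J k) : 0 < t ∧ t < 1 := by
  obtain ⟨h1, h2⟩ := J_bd h
  have h3 := a_mono (Nat.zero_le k)
  have h4 : a 0 = 1 / 2 := by simp [a, tw]; norm_num
  have h5 : a (k + 1) < 1 := by simp [a, tw_pos]
  constructor <;> linarith

lemma J_disj {k m : ℕ} {t : ℝ} (h : t ∈ J k) (h' : t ∈ J m) : m = k := by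
  by_contra hne
  rcases lt_or_gt_of_ne hne with h1 | h1
  · linarith [(J_bd h').2, (J_bd h).1, a_mono (show m + 1 ≤ k from h1)]
  · linarith [(J_bd h).2, (J_bd h').1, a_mono (show k + 1 ≤ m from h1)]

noncomputable def ρ (t : ℝ) : ℝ := ⨆ k, (J k).indicator (fun _ => c k) t

lemma ρ_meas : Measurable ρ :=
  Measurable.iSup fun _ => measurable_const.indicator measurableSet_Ico

lemma ρ_in {k : ℕ} {t : ℝ} (h : t ∈ J k) : ρ t = c k := by
  have h1 : ∀ m, (J m).indicator (fun _ => c m) t ≤ c k := fun m => by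
    by_cases hm : t ∈ J m
    · rw [J_disj h hm, indicator_of_mem h]
    · rw [indicator_of_notMem hm]; exact (tw_pos _).le
  refine le_antisymm (ciSup_le h1) (le_ciSup_of_le ⟨c k, by rintro _ ⟨m, rfl⟩; exact h1 m⟩ k ?_)
  rw [indicator_of_mem h]

lemma ρ_out {t : ℝ} (h : ∀ k, t ∉ J k) : ρ t = 0 := by
  simp [ρ, h]

lemma ρ_nonneg (t : ℝ) : 0 ≤ ρ t := by
  by_cases h : ∃ k, t ∈ J k
  · obtain ⟨k, hk⟩ := h; rw [ρ_in hk]; exact (tw_pos _).le
  · rw [ρ_out (not_exists.mp h)]

lemma ρ_ne {t : ℝ} (h : ρ t ≠ 0) : ∃ k, t ∈ J k := by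
  by_contra h'; exact h (ρ_out (not_exists.mp h'))

lemma vol_J (k : ℕ) : volume.real (J k) = l k := by
  simp [J, abs_of_pos, (tw_pos _).le, l]

lemma integ (f : ℝ → ℝ) (hf : Measurable f) (d : ℕ → ℝ) (h0 : ∀ t, f t ≠ 0 → ∃ k, t ∈ J k)
    (hd : ∀ k, ∀ t ∈ J k, ‖f t‖ ≤ d k) (hs : Summable fun k => d k * l k) : Integrable f := by
  have fin : ∀ k, volume (J k) < ⊤ := fun k => by simp [J]
  have h1 : ∀ k, IntegrableOn f (J k) := fun k =>
    Measure.integrableOn_of_bounded (M := d k) (fin k).ne hf.aestronglyMeasurable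
      ((ae_restrict_iff' measurableSet_Ico).mpr (ae_of_all _ (hd k)))
  rw [← integrableOn_iff_integrable_of_support_subset (s := ⋃ k, J k)
    fun t ht => mem_iUnion.mpr (h0 t ht)]
  refine integrableOn_iUnion_of_summable_integral_norm h1
    (hs.of_nonneg_of_le (fun k => integral_nonneg fun _ => norm_nonneg _) fun k => ?_)
  have := norm_setIntegral_le_of_norm_le_const (fin k) (f := fun t => ‖f t‖) (C := d k)
    (fun t ht => by simpa using hd k t ht)
  rw [vol_J] at this
  exact (le_abs_self _).trans this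

lemma ρ_int : Integrable ρ := by
  refine integ ρ ρ_meas c (fun t => ρ_ne) (fun k t ht => ?_) ?_
  · rw [ρ_in ht]; exact (Real.norm_of_nonneg (tw_pos _).le).le
  · refine summable_geometric_two.congr fun k => ?_
    rw [c, l, ← tw_add, ← tw_neg]; congr 1; ring

noncomputable def u (t : ℝ) : ℝ := ∫ s, max (s - |t|) 0 * ρ s

lemma T_le (s t : ℝ) : ‖max (s - |t|) 0 * ρ s‖ ≤ ρ s * (Icc (-1 : ℝ) 1).indicator 1 t := by
  by_cases h : ρ s = 0
  · simp [h]
  obtain ⟨k, hk⟩ := ρ_ne h
  have h1 := J_01 hk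
  rw [Real.norm_of_nonneg (mul_nonneg (le_max_right _ _) (ρ_nonneg s)), mul_comm]
  refine mul_le_mul_of_nonneg_left ?_ (ρ_nonneg s)
  by_cases ht : t ∈ Icc (-1 : ℝ) 1
  · rw [indicator_of_mem ht]
    exact max_le (by simp only [Pi.one_apply]; linarith [abs_nonneg t]) zero_le_one
  · rw [indicator_of_notMem ht]
    have : 1 < |t| := by
      by_contra h2
      exact ht (abs_le.mp (not_lt.mp h2))
    exact max_le (by linarith) le_rfl

lemma T_int (t : ℝ) : Integrable fun s => max (s - |t|) 0 * ρ s :=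
  (ρ_int.mul_const _).mono' (Measurable.aestronglyMeasurable (by have := ρ_meas; fun_prop))
    (ae_of_all _ fun s => T_le s t)

lemma u_nonneg (t : ℝ) : 0 ≤ u t :=
  integral_nonneg fun s => mul_nonneg (le_max_right _ _) (ρ_nonneg s)

lemma u_out {t : ℝ} (ht : t ∉ Icc (-1 : ℝ) 1) : u t = 0 := by
  refine (integral_congr_ae (ae_of_all _ fun s => ?_)).trans (integral_zero _ _)
  have := T_le s t
  rwa [indicator_of_notMem ht, mul_zero, norm_le_zero_iff] at this

lemma u_cont : Continuous u := by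
  refine continuous_of_dominated (bound := ρ) (fun t => (T_int t).1)
    (fun t => ae_of_all _ fun s => (T_le s t).trans ?_) ρ_int (ae_of_all _ fun s => by fun_prop)
  refine mul_le_of_le_one_right (ρ_nonneg s) ?_
  by_cases ht : t ∈ Icc (-1 : ℝ) 1 <;> simp [ht]

lemma u_supp : HasCompactSupport u :=
  HasCompactSupport.intro isCompact_Icc fun _ => u_out

lemma u_low {k : ℕ} {t : ℝ} (h : |t| ≤ a (k + 1)) : tw (-(2 * k + 5)) ≤ u t := by
  have h1 : ∫ s, (J (k + 2)).indicator (fun _ => tw (-(k + 3)) * c (k + 2)) s ≤ u t := by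
    refine integral_mono ((integrable_indicator_iff measurableSet_Ico).mpr
      (integrableOn_const (by simp [J]))) (T_int t) fun s => ?_
    by_cases hs : s ∈ J (k + 2)
    · simp only [indicator_of_mem hs, ρ_in hs]
      refine mul_le_mul_of_nonneg_right (le_max_of_le_left ?_) (tw_pos _).le
      have h2 := a_succ (k + 1)
      push_cast at h2
      rw [show -((k : ℝ) + 1 + 2) = -(k + 3) by ring] at h2
      linarith [(J_bd hs).1]
    · simp only [indicator_of_notMem hs]
      exact mul_nonneg (le_max_right _ _) (ρ_nonneg s)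
  rw [integral_indicator_const _ (show MeasurableSet (J (k + 2)) from measurableSet_Ico)] at h1
  refine le_trans (le_of_eq ?_) h1
  rw [vol_J, smul_eq_mul, l, c, ← tw_add, ← tw_add]
  congr 1; push_cast; ring

lemma u_J {k : ℕ} {t : ℝ} (h : t ∈ J k) : tw (-(2 * k + 5)) ≤ u t :=
  u_low (by rw [abs_of_pos (J_01 h).1]; exact (J_bd h).2.le)

lemma W_int (q : ℝ) (hq : 0 < q) (hq1 : q < 1) : Integrable fun t => (ρ t / u t) ^ q := by
  refine integ _ (by have := ρ_meas; have := u_cont.measurable; fun_prop)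
    (fun k => tw ((k + 5 + (k + 2) ^ 2) * q)) (fun t ht => ρ_ne fun h => ht ?_) (fun k t ht => ?_) ?_
  · simp [h, hq.ne']
  · have h1 := div_nonneg (ρ_nonneg t) (u_nonneg t)
    rw [Real.norm_of_nonneg (Real.rpow_nonneg h1 q), ← tw_rpow]
    refine Real.rpow_le_rpow h1 ?_ hq.le
    rw [ρ_in ht, show (k : ℝ) + 5 + (k + 2) ^ 2 = (-k + (k + 2) ^ 2) - (-(2 * k + 5)) by ring,
      tw_sub]
    exact div_le_div_of_nonneg_left (tw_pos _).le (tw_pos _) (u_J ht)
  · refine (summable_geometric_two.mul_left (tw (1 + 1 / (1 - q)))).of_nonneg_of_le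
      (fun k => (mul_pos (tw_pos _) (tw_pos _)).le) fun k => ?_
    rw [l, ← tw_add, ← tw_neg, ← tw_add]
    refine tw_mono ?_
    have h1 : 0 < 1 - q := by linarith
    have h2 : (1 - q) * (1 / (1 - q)) = 1 := by field_simp
    have h3 := mul_nonneg h1.le (sq_nonneg ((k : ℝ) + 2 - 1 / (1 - q)))
    have h4 := Nat.cast_nonneg (α := ℝ) k
    generalize 1 / (1 - q) = m at *
    have h5 : (1 - q) * ((k : ℝ) + 2 - m) ^ 2 = (1 - q) * (k + 2) ^ 2 - 2 * (k + 2) + m := by
      linear_combination (m - 2 * (k + 2)) * h2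
    nlinarith

lemma tent (ψ ψ1 ψ2 : ℝ → ℝ) (h1 : ∀ t, HasDerivAt ψ (ψ1 t) t) (h2 : ∀ t, HasDerivAt ψ1 (ψ2 t) t)
    (hc : Continuous ψ2) (s : ℝ) (hs : 0 < s) :
    ∫ t, max (s - |t|) 0 * ψ2 t = ψ s + ψ (-s) - 2 * ψ 0 := by
  have c1 : Continuous fun t => max (s - |t|) 0 * ψ2 t := by fun_prop
  rw [← intervalIntegral.integral_eq_integral_of_support_subset (a := -s) (b := s),
    ← intervalIntegral.integral_add_adjacent_intervals (b := 0) (c1.intervalIntegrable _ _)
      (c1.intervalIntegrable _ _),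
    intervalIntegral.integral_congr (g := fun t => (s + t) * ψ2 t) (a := -s),
    intervalIntegral.integral_congr (g := fun t => (s - t) * ψ2 t) (a := 0),
    intervalIntegral.integral_eq_sub_of_hasDerivAt (f := fun t => (s + t) * ψ1 t - ψ t),
    intervalIntegral.integral_eq_sub_of_hasDerivAt (f := fun t => (s - t) * ψ1 t + ψ t)]
  · ring
  · exact fun t _ => ((((hasDerivAt_id' t).const_sub s).fun_mul (h2 t)).fun_add (h1 t)).congr_deriv
      (by ring)
  · exact Continuous.intervalIntegrable (by fun_prop) _ _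
  · exact fun t _ => ((((hasDerivAt_id' t).const_add s).fun_mul (h2 t)).fun_sub (h1 t)).congr_deriv
      (by ring)
  · exact Continuous.intervalIntegrable (by fun_prop) _ _
  · intro t ht
    rw [uIcc_of_le hs.le] at ht
    simp only [abs_of_nonneg ht.1, max_eq_left (sub_nonneg.mpr ht.2)]
  · intro t ht
    rw [uIcc_of_le (by linarith)] at ht
    simp only [abs_of_nonpos ht.2, sub_neg_eq_add, max_eq_left (show 0 ≤ s + t by linarith [ht.1])]
  · intro t ht
    have h3 : |t| < s := by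
      by_contra h4
      exact ht (by simp only [max_eq_right (show s - |t| ≤ 0 by linarith), zero_mul])
    exact ⟨(abs_lt.mp h3).1, (abs_lt.mp h3).2.le⟩

noncomputable def σ (t : ℝ) : ℝ := ρ t + ρ (-t)

lemma σ_int : Integrable σ := ρ_int.add ρ_int.comp_neg

lemma oneD (ψ ψ1 ψ2 : ℝ → ℝ) (h1 : ∀ t, HasDerivAt ψ (ψ1 t) t) (h2 : ∀ t, HasDerivAt ψ1 (ψ2 t) t)
    (hc : Continuous ψ2) (h0 : ∀ t, 0 ≤ ψ t) (M : ℝ) (hM : ∀ t, ‖ψ t‖ ≤ M) :
    ∫ t, u t * ψ2 t ≤ ∫ t, σ t * ψ t := by
  have cψ : Continuous ψ := continuous_iff_continuousAt.mpr fun t => (h1 t).continuousAt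
  have i1 : Integrable fun s => ρ s * ψ s :=
    ρ_int.mul_bdd cψ.aestronglyMeasurable (ae_of_all _ hM)
  have i2 : Integrable fun s => ρ s * ψ (-s) :=
    ρ_int.mul_bdd (Continuous.aestronglyMeasurable (by fun_prop)) (ae_of_all _ fun s => hM _)
  have i3 : Integrable fun s => ρ (-s) * ψ s := by simpa using i2.comp_neg
  have i4 : Integrable (Function.uncurry fun t s => max (s - |t|) 0 * ρ s * ψ2 t)
      (volume.prod volume) := by
    have i5 : Integrable ((Icc (-1 : ℝ) 1).indicator fun t => ‖ψ2 t‖) :=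
      (integrable_indicator_iff measurableSet_Icc).mpr (hc.norm.integrableOn_Icc)
    refine (i5.mul_prod ρ_int).mono' (Measurable.aestronglyMeasurable ?_)
      (ae_of_all _ fun p => ?_)
    · have := ρ_meas; have := hc.measurable
      unfold Function.uncurry
      fun_prop
    · simp only [Function.uncurry, norm_mul _ (ψ2 _)]
      refine (mul_le_mul_of_nonneg_right (T_le p.2 p.1) (norm_nonneg _)).trans (le_of_eq ?_)
      by_cases hp : p.1 ∈ Icc (-1 : ℝ) 1 <;> simp [hp, mul_comm]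
  have e1 : ∫ t, σ t * ψ t = ∫ s, (ρ s * ψ s + ρ s * ψ (-s)) := by
    simp only [σ, add_mul]
    rw [integral_add i1 i3, integral_add i1 i2, ← integral_neg_eq_self fun s => ρ s * ψ (-s)]
    simp
  simp only [u, ← integral_mul_const]
  rw [e1, integral_integral_swap i4]
  refine integral_mono i4.integral_prod_right (i1.add i2) fun s => ?_
  simp only [mul_right_comm _ (ρ s), integral_mul_const]
  by_cases h : ρ s = 0
  · simp [h]
  obtain ⟨k, hk⟩ := ρ_ne h
  rw [tent ψ ψ1 ψ2 h1 h2 hc s (J_01 hk).1]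
  nlinarith [mul_nonneg (ρ_nonneg s) (h0 0)]

lemma σ_nonneg (t : ℝ) : 0 ≤ σ t := add_nonneg (ρ_nonneg _) (ρ_nonneg _)

lemma u_neg (t : ℝ) : u (-t) = u t := by simp [u]

lemma σ_div (t : ℝ) : σ t / u t * u t = σ t := by
  by_cases h : u t = 0
  · have h1 : ∀ s, u s = 0 → ρ s = 0 := fun s hs => by
      by_contra h2
      obtain ⟨k, hk⟩ := ρ_ne h2
      linarith [u_J hk, tw_pos (-(2 * k + 5))]
    simp [σ, h1 t h, h1 (-t) (by rwa [u_neg])]
  · exact div_mul_cancel₀ _ h

lemma σ_pow_int (q : ℝ) (hq : 0 < q) (hq1 : q < 1) : Integrable fun t => (σ t / u t) ^ q := by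
  refine ((W_int q hq hq1).add (W_int q hq hq1).comp_neg).mono' (Measurable.aestronglyMeasurable ?_)
    (ae_of_all _ fun t => ?_)
  · have := ρ_meas; have := u_cont.measurable
    unfold σ
    fun_prop
  · rw [Real.norm_of_nonneg (Real.rpow_nonneg (div_nonneg (σ_nonneg t) (u_nonneg t)) q), σ, add_div]
    simp only [Pi.add_apply, u_neg]
    exact Real.rpow_add_le_add_rpow (div_nonneg (ρ_nonneg _) (u_nonneg _))
      (div_nonneg (ρ_nonneg _) (u_nonneg _)) hq.le hq1.le

lemma u_int : Integrable u := u_cont.integrable_of_hasCompactSupport u_supp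

noncomputable def F {N : ℕ} (i j : Fin N) (t : ℝ) : ℝ :=
  if j = i then σ t / u t else (Icc (-1 : ℝ) 1).indicator 1 t

noncomputable def G {N : ℕ} (i j : Fin N) (t : ℝ) : ℝ := if j = i then σ t else u t

noncomputable def U {N : ℕ} (x : Fin N → ℝ) : ℝ := ∏ j, u (x j)

noncomputable def V {N : ℕ} (x : Fin N → ℝ) : ℝ := ∑ i, ∏ j, F i j (x j)

lemma F_nonneg {N : ℕ} (i j : Fin N) (t : ℝ) : 0 ≤ F i j t := by
  unfold F
  split_ifs
  · exact div_nonneg (σ_nonneg t) (u_nonneg t)
  · exact indicator_nonneg (fun _ _ => zero_le_one) t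

lemma F_meas {N : ℕ} (i j : Fin N) : Measurable (F i j) := by
  unfold F
  split_ifs
  · have := ρ_meas; have := u_cont.measurable
    unfold σ
    fun_prop
  · exact measurable_one.indicator measurableSet_Icc

lemma V_meas {N : ℕ} : Measurable (V (N := N)) :=
  Finset.measurable_sum _ fun i _ => Finset.measurable_prod _ fun j _ =>
    (F_meas i j).comp (measurable_pi_apply j)

lemma VU {N : ℕ} (x : Fin N → ℝ) : V x * U x = ∑ i, ∏ j, G i j (x j) := by
  simp only [V, U, Finset.sum_mul, ← Finset.prod_mul_distrib]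
  refine Finset.sum_congr rfl fun i _ => Finset.prod_congr rfl fun j _ => ?_
  unfold F G
  split_ifs
  · exact σ_div _
  · by_cases h : x j ∈ Icc (-1 : ℝ) 1
    · simp [h]
    · simp [u_out h]

lemma G_int {N : ℕ} (i : Fin N) : Integrable fun x : Fin N → ℝ => ∏ j, G i j (x j) := by
  refine Integrable.fintype_prod (f := G i) fun j => ?_
  unfold G
  split_ifs
  · exact σ_int
  · exact u_int

lemma U_cont {N : ℕ} : Continuous (U (N := N)) :=
  continuous_finsetProd _ fun j _ => u_cont.comp (continuous_apply j)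

lemma U_supp {N : ℕ} : HasCompactSupport (U (N := N)) := by
  refine HasCompactSupport.intro (isCompact_univ_pi fun _ => isCompact_Icc (a := (-1 : ℝ)) (b := 1))
    fun x hx => ?_
  simp only [mem_pi, mem_univ, true_imp_iff, not_forall] at hx
  obtain ⟨j, hj⟩ := hx
  exact Finset.prod_eq_zero (Finset.mem_univ j) (u_out hj)

lemma sum_rpow {ι : Type} (s : Finset ι) (f : ι → ℝ) (hf : ∀ i, 0 ≤ f i) (q : ℝ) (hq : 0 < q)
    (hq1 : q ≤ 1) : (∑ i ∈ s, f i) ^ q ≤ ∑ i ∈ s, f i ^ q := by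
  classical
  induction s using Finset.induction_on with
  | empty => simp [hq.ne']
  | insert i s hi ih =>
    rw [Finset.sum_insert hi, Finset.sum_insert hi]
    exact (Real.rpow_add_le_add_rpow (hf i) (Finset.sum_nonneg fun j _ => hf j) hq.le hq1).trans
      (by linarith)

lemma V_nonneg {N : ℕ} (x : Fin N → ℝ) : 0 ≤ V x :=
  Finset.sum_nonneg fun i _ => Finset.prod_nonneg fun j _ => F_nonneg i j _

lemma V_pow {N : ℕ} (q : ℝ) (hq : 0 < q) (hq1 : q < 1) :
    Integrable fun x : Fin N → ℝ => V x ^ q := by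
  have h1 : ∀ i : Fin N, Integrable fun x : Fin N → ℝ => ∏ j, F i j (x j) ^ q := fun i => by
    refine Integrable.fintype_prod (f := fun j t => F i j t ^ q) fun j => ?_
    unfold F
    split_ifs
    · exact σ_pow_int q hq hq1
    · refine ((integrable_indicator_iff (measurableSet_Icc (a := (-1 : ℝ)) (b := 1))).mpr
        (integrableOn_const (C := (1 : ℝ)) (by simp))).congr (ae_of_all _ fun t => ?_)
      by_cases h : t ∈ Icc (-1 : ℝ) 1 <;> simp [h, hq.ne']
  refine (integrable_finsetSum Finset.univ fun i _ => h1 i).mono'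
    (V_meas.pow_const q).aestronglyMeasurable (ae_of_all _ fun x => ?_)
  rw [Real.norm_of_nonneg (Real.rpow_nonneg (V_nonneg x) q)]
  refine (sum_rpow _ _ (fun i => Finset.prod_nonneg fun j _ => F_nonneg i j _) q hq hq1.le).trans
    (le_of_eq (Finset.sum_congr rfl fun i _ => ?_))
  exact (Real.finsetProd_rpow _ _ (fun j _ => F_nonneg i j _) q).symm

lemma fub {n : ℕ} (i : Fin (n + 1)) (f g : (Fin (n + 1) → ℝ) → ℝ) (hf : Integrable f)
    (hg : Integrable g)
    (h : ∀ y : Fin n → ℝ, ∫ t, f (Fin.insertNth i t y) ≤ ∫ t, g (Fin.insertNth i t y)) :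
    ∫ x, f x ≤ ∫ x, g x := by
  have hp := (volume_preserving_piFinSuccAbove (fun _ : Fin (n + 1) => ℝ) i).symm
  have hf' := hp.integrable_comp_of_integrable hf
  have hg' := hp.integrable_comp_of_integrable hg
  rw [← hp.integral_comp' f, ← hp.integral_comp' g]
  exact ((integral_prod_symm _ hf').trans_le
    (integral_mono hf'.integral_prod_right hg'.integral_prod_right h)).trans_eq
    (integral_prod_symm _ hg').symm

lemma dir {n : ℕ} (i : Fin (n + 1)) (φ : (Fin (n + 1) → ℝ) → ℝ) (hφ : ContDiff ℝ 2 φ)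
    (hc : HasCompactSupport φ) (h0 : ∀ x, 0 ≤ φ x) :
    Integrable (fun x => U x * fderiv ℝ (fun y => fderiv ℝ φ y (Pi.single i 1)) x (Pi.single i 1)) ∧
    Integrable (fun x => (∏ j, G i j (x j)) * φ x) ∧
    ∫ x, U x * fderiv ℝ (fun y => fderiv ℝ φ y (Pi.single i 1)) x (Pi.single i 1) ≤
      ∫ x, (∏ j, G i j (x j)) * φ x := by
  have c1 : ContDiff ℝ 1 fun y => fderiv ℝ φ y (Pi.single i 1) :=
    (hφ.fderiv_right (m := 1) (by norm_num)).clm_apply contDiff_const
  have c2 : Continuous fun x => fderiv ℝ (fun y => fderiv ℝ φ y (Pi.single i 1)) x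
      (Pi.single i 1) := (c1.continuous_fderiv one_ne_zero).clm_apply continuous_const
  obtain ⟨M, hM⟩ := hφ.continuous.bounded_above_of_compact_support hc
  have i1 := (U_cont.mul c2).integrable_of_hasCompactSupport (μ := volume) U_supp.mul_right
  have i2 := (G_int i).mul_bdd hφ.continuous.aestronglyMeasurable (ae_of_all _ hM)
  refine ⟨i1, i2, fub i _ _ i1 i2 fun y => ?_⟩
  have hγ : ∀ t : ℝ, HasDerivAt (fun t : ℝ => (Fin.insertNth i t y : Fin (n + 1) → ℝ))
      (Pi.single i 1) t := fun t => by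
    have e : (fun t : ℝ => (Fin.insertNth i t y : Fin (n + 1) → ℝ)) =
        fun t => Fin.insertNth i 0 y + t • Pi.single i 1 := by
      ext t j
      refine Fin.succAboveCases i ?_ (fun j => ?_) j <;> simp
    rw [e]
    exact (((hasDerivAt_id' t).smul_const (Pi.single i (1 : ℝ) : Fin (n + 1) → ℝ)).const_add
      _).congr_deriv (one_smul _ _)
  have key := oneD (fun t => φ (Fin.insertNth i t y)) _ _
    (fun t => (hφ.differentiable two_ne_zero _).hasFDerivAt.comp_hasDerivAt t (hγ t))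
    (fun t => (c1.differentiable one_ne_zero _).hasFDerivAt.comp_hasDerivAt t (hγ t))
    (c2.comp (continuous_iff_continuousAt.mpr fun t => (hγ t).continuousAt))
    (fun t => h0 _) M (fun t => hM _)
  simp only [U, Fin.prod_univ_succAbove _ i, Fin.insertNth_apply_same,
    Fin.insertNth_apply_succAbove, G, if_true, Fin.succAbove_ne, if_false,
    mul_right_comm _ (∏ j, u (y j)), integral_mul_const]
  exact mul_le_mul_of_nonneg_right key (Finset.prod_nonneg fun j _ => u_nonneg _)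

theorem result (N : ℕ) (hN : 1 ≤ N) :
    ∃ u V : (Fin N → ℝ) → ℝ, Measurable V ∧ Continuous u ∧ Integrable u ∧ (∀ x, 0 ≤ u x) ∧
      Integrable (fun x => V x * u x) ∧
      (∀ φ : (Fin N → ℝ) → ℝ, ContDiff ℝ (⊤ : ℕ∞) φ → HasCompactSupport φ → (∀ x, 0 ≤ φ x) →
        ∫ x, u x * lap φ x ≤ ∫ x, V x * u x * φ x) ∧
      HasCompactSupport u ∧
      (∀ p : ℝ, 0 < p → p < 2 → Integrable fun x => √(max (V x) 0) ^ p) ∧
      ∃ x, u x ≠ 0 := by
  obtain ⟨n, rfl⟩ : ∃ n, N = n + 1 := ⟨N - 1, by omega⟩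
  refine ⟨U, V, V_meas, U_cont, U_cont.integrable_of_hasCompactSupport U_supp,
    fun x => Finset.prod_nonneg fun j _ => u_nonneg _, ?_, fun φ hφ hc h0 => ?_, U_supp,
    fun p hp hp2 => ?_, 0, ?_⟩
  · simp only [VU]
    exact integrable_finsetSum _ fun i _ => G_int i
  · have h := fun i => dir i φ (hφ.of_le (WithTop.coe_le_coe.mpr (le_top : (2 : ℕ∞) ≤ ⊤))) hc h0
    simp only [VU, lap, Finset.mul_sum, Finset.sum_mul]
    rw [integral_finsetSum _ fun i _ => (h i).1, integral_finsetSum _ fun i _ => (h i).2.1]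
    exact Finset.sum_le_sum fun i _ => (h i).2.2
  · refine (V_pow (p / 2) (by linarith) (by linarith)).congr (ae_of_all _ fun x => ?_)
    simp only [max_eq_left (V_nonneg x), Real.sqrt_eq_rpow, ← Real.rpow_mul (V_nonneg x)]
    congr 1; ring
  · refine Finset.prod_ne_zero_iff.mpr fun j _ => ((tw_pos _).trans_le (u_low (k := 0) ?_)).ne'
    simp [a, tw]
    norm_num

end Pool.Agent.Results.MP_1d8377_an.Counter
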